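import Mathlib

/-!
An everywhere defined paranormal linear map on a complex Hilbert space is bounded.
-/

namespace Pool.Agent.Results.MP_69a59d_an.Bounded

open Set Metric

/-- A convexity and Baire category argument: some ball around `0` is contained in the closure of
`{x | ‖S x‖ ≤ 1}`, for every (not necessarily continuous) linear map `S`. -/
lemma ball_sub {H : Type*} [NormedAddCommGroup H] [InnerProductSpace ℂ H] [CompleteSpace H]
    (S : H →ₗ[ℂ] H) :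
    ∃ r : ℝ, 0 < r ∧ ∃ K : ℝ, 0 < K ∧ ∀ z : H, ‖z‖ < r → ∀ δ : ℝ, 0 < δ →
      ∃ w : H, ‖S w‖ ≤ K ∧ ‖z - w‖ < δ := by
  have hU : (⋃ n : ℕ, closure {x : H | ‖S x‖ ≤ n}) = univ := by
    refine eq_univ_of_forall fun x => mem_iUnion.2 ?_
    obtain ⟨n, hn⟩ := exists_nat_ge ‖S x‖
    exact ⟨n, subset_closure hn⟩
  obtain ⟨n, x0, hx0⟩ := nonempty_interior_of_iUnion_of_closed
    (fun n : ℕ => isClosed_closure (s := {x : H | ‖S x‖ ≤ n})) hU
  rw [mem_interior_iff_mem_nhds, Metric.mem_nhds_iff] at hx0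
  obtain ⟨r, hr, hball⟩ := hx0
  refine ⟨r, hr, 2 * n + 1, by positivity, fun z hz δ hδ => ?_⟩
  have h1 : x0 + z ∈ closure {x : H | ‖S x‖ ≤ n} := hball (by simpa [mem_ball, dist_eq_norm] using hz)
  have h2 : x0 ∈ closure {x : H | ‖S x‖ ≤ n} := hball (by simpa [mem_ball] using hr)
  obtain ⟨u, hu, hu'⟩ := Metric.mem_closure_iff.1 h1 (δ / 2) (by positivity)
  obtain ⟨v, hv, hv'⟩ := Metric.mem_closure_iff.1 h2 (δ / 2) (by positivity)
  rw [dist_eq_norm] at hu' hv'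
  refine ⟨u - v, ?_, ?_⟩
  · rw [map_sub]
    have h3 : ‖S u‖ ≤ n := hu
    have h4 : ‖S v‖ ≤ n := hv
    calc ‖S u - S v‖ ≤ ‖S u‖ + ‖S v‖ := norm_sub_le _ _
      _ ≤ 2 * n + 1 := by linarith
  · have : z - (u - v) = (x0 + z - u) - (x0 - v) := by abel
    rw [this]
    calc ‖(x0 + z - u) - (x0 - v)‖ ≤ ‖x0 + z - u‖ + ‖x0 - v‖ := norm_sub_le _ _
      _ < δ := by linarith

/-- Every linear map `T`, defined on all of a complex Hilbert space `H`, which is paranormal,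
i.e. `‖T x‖ ^ 2 ≤ ‖T (T x)‖ * ‖x‖` for all `x`, is bounded. -/
theorem result (H : Type*) [NormedAddCommGroup H] [InnerProductSpace ℂ H] [CompleteSpace H]
    (T : H →ₗ[ℂ] H) (hT : ∀ x, ‖T x‖ ^ 2 ≤ ‖T (T x)‖ * ‖x‖) :
    ∃ C : ℝ, ∀ x, ‖T x‖ ≤ C * ‖x‖ := by
  obtain ⟨r, hr, K, hK, hb⟩ := ball_sub (T ∘ₗ T)
  -- it suffices to bound `T` on the ball of radius `r / 2`
  have key : ∀ z : H, ‖z‖ < r → ‖T z‖ ≤ Real.sqrt (K * r) := by
    intro z hz
    have hlim : ∀ δ : ℝ, 0 < δ →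
        ‖T z‖ ≤ Real.sqrt (K * (r + δ)) + Real.sqrt ((‖T (T z)‖ + K) * δ) := by
      intro δ hδ
      obtain ⟨w, hw1, hw2⟩ := hb z hz δ hδ
      have hw1' : ‖T (T w)‖ ≤ K := hw1
      have e1 : ‖T w‖ ≤ Real.sqrt (K * (r + δ)) := by
        apply Real.le_sqrt_of_sq_le
        have : ‖w‖ ≤ r + δ := by
          have : w = z - (z - w) := by abel
          calc ‖w‖ = ‖z - (z - w)‖ := by rw [← this]
            _ ≤ ‖z‖ + ‖z - w‖ := norm_sub_le _ _
            _ ≤ r + δ := by linarith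
        calc ‖T w‖ ^ 2 ≤ ‖T (T w)‖ * ‖w‖ := hT w
          _ ≤ K * (r + δ) := mul_le_mul hw1' this (norm_nonneg _) hK.le
      have e2 : ‖T (z - w)‖ ≤ Real.sqrt ((‖T (T z)‖ + K) * δ) := by
        apply Real.le_sqrt_of_sq_le
        have : ‖T (T (z - w))‖ ≤ ‖T (T z)‖ + K := by
          rw [map_sub, map_sub]
          calc ‖T (T z) - T (T w)‖ ≤ ‖T (T z)‖ + ‖T (T w)‖ := norm_sub_le _ _
            _ ≤ ‖T (T z)‖ + K := by linarith
        calc ‖T (z - w)‖ ^ 2 ≤ ‖T (T (z - w))‖ * ‖z - w‖ := hT _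
          _ ≤ (‖T (T z)‖ + K) * δ := mul_le_mul this hw2.le (norm_nonneg _) (by positivity)
      have h5 : T z = T w + T (z - w) := by rw [← map_add]; congr 1; abel
      have h6 : ‖T z‖ ≤ ‖T w‖ + ‖T (z - w)‖ := by
        conv_lhs => rw [h5]
        exact norm_add_le _ _
      exact h6.trans (add_le_add e1 e2)
    have hcont : Filter.Tendsto
        (fun δ : ℝ => Real.sqrt (K * (r + δ)) + Real.sqrt ((‖T (T z)‖ + K) * δ))
        (nhdsWithin 0 (Ioi 0)) (nhds (Real.sqrt (K * (r + 0)) + Real.sqrt ((‖T (T z)‖ + K) * 0))) := by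
      apply Filter.Tendsto.mono_left _ nhdsWithin_le_nhds
      exact (by fun_prop : Continuous
        (fun δ : ℝ => Real.sqrt (K * (r + δ)) + Real.sqrt ((‖T (T z)‖ + K) * δ))).tendsto 0
    have := ge_of_tendsto hcont (Filter.eventually_of_mem self_mem_nhdsWithin hlim)
    simpa using this
  refine ⟨Real.sqrt (K * r) / (r / 2), fun x => ?_⟩
  rcases eq_or_ne x 0 with rfl | hx
  · simp
  have hx' : 0 < ‖x‖ := norm_pos_iff.2 hx
  have h1 := key ((((r / 2) / ‖x‖ : ℝ) : ℂ) • x) (by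
    rw [norm_smul, Complex.norm_real, Real.norm_of_nonneg (by positivity)]
    rw [div_mul_cancel₀ _ hx'.ne']; linarith)
  rw [map_smul, norm_smul, Complex.norm_real, Real.norm_of_nonneg (by positivity)] at h1
  rw [div_mul_eq_mul_div, le_div_iff₀ (by positivity)]
  calc ‖T x‖ * (r / 2) = (r / 2 / ‖x‖ * ‖T x‖) * ‖x‖ := by field_simp
    _ ≤ Real.sqrt (K * r) * ‖x‖ := by gcongr

end Pool.Agent.Results.MP_69a59d_an.Bounded
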